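import Pool.Agent.Torelli.Fin.Final
import Pool.Agent.Torelli.PG.Main
import Pool.Agent.Torelli.PG.TypeMain
import Pool.Agent.Torelli.E.Main

set_option autoImplicit false

namespace Pool.Agent.Results.MP_f42b78_gt.JohnsonGenerators

/-- The fundamental group of the closed oriented surface of genus `g`: generators
`x i = of (0, i)`, `y i = of (1, i)`, one relator, the product of the commutators `[x i, y i]`. -/
abbrev SurfaceGroup (g : ℕ) : Type :=
  PresentedGroup
    ({(List.ofFn (fun i : Fin g =>
        FreeGroup.of ((0 : Fin 2), i) * FreeGroup.of ((1 : Fin 2), i) *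
          (FreeGroup.of ((0 : Fin 2), i))⁻¹ * (FreeGroup.of ((1 : Fin 2), i))⁻¹)).prod}
      : Set (FreeGroup (Fin 2 × Fin g)))

/-- The group of inner automorphisms. -/
def Inner (G : Type) [Group G] : Subgroup (MulAut G) := (MulAut.conj : G →* MulAut G).range

instance (G : Type) [Group G] : (Inner G).Normal where
  conj_mem := by
    rintro _ ⟨x, rfl⟩ φ
    refine ⟨φ x, ?_⟩
    ext y
    simp [MulAut.conj_apply]

/-- The outer automorphism group. -/
abbrev OuterAut (G : Type) [Group G] : Type := MulAut G ⧸ Inner G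

/-- The automorphisms that act trivially on the abelianisation. -/
def TrivialOnAb (G : Type) [Group G] : Subgroup (MulAut G) where
  carrier := {φ | ∀ x : G, Abelianization.of (φ x) = Abelianization.of x}
  one_mem' := fun _ => rfl
  mul_mem' := by
    intro φ ψ h1 h2 x
    rw [MulAut.mul_apply, h1, h2]
  inv_mem' := by
    intro φ h x
    have := h (φ⁻¹ x)
    rw [MulAut.apply_inv_self] at this
    exact this.symm

/-- The Torelli group: the outer automorphisms that act trivially on the abelianisation. -/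
def Torelli (G : Type) [Group G] : Subgroup (OuterAut G) :=
  (TrivialOnAb G).map (QuotientGroup.mk' (Inner G))

theorem result : ∀ g : ℕ, 4 ≤ g →
    ∃ f : Fin ((4 * g ^ 3 - g) / 3) → OuterAut (SurfaceGroup g),
      Subgroup.closure (Set.range f) = Torelli (SurfaceGroup g) := by
  intro g hg
  obtain ⟨f, h1, h2⟩ := Pool.Agent.Torelli.final Pool.Agent.Torelli.pgStmt
    Pool.Agent.Torelli.typeStmt (fun s h hh => (Pool.Agent.Torelli.Tor_eq_JJ h s (by omega)).le)
    g hg (SurfaceGroup g) ⟨MulEquiv.refl _⟩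
  refine ⟨fun i => (QuotientGroup.mk' (Inner (SurfaceGroup g)) (f i)), le_antisymm ?_ ?_⟩
  · rw [Subgroup.closure_le]
    rintro _ ⟨i, rfl⟩
    exact ⟨f i, h1 i, rfl⟩
  · rintro _ ⟨ψ, hψ, rfl⟩
    have h3 := Subgroup.mem_map_of_mem (QuotientGroup.mk' (Inner (SurfaceGroup g))) (h2 ψ hψ)
    rw [MonoidHom.map_closure] at h3
    refine (Subgroup.closure_le _).2 ?_ h3
    rintro _ ⟨φ, ⟨i, rfl⟩ | ⟨x, rfl⟩, rfl⟩
    · exact Subgroup.subset_closure ⟨i, rfl⟩
    · have : (QuotientGroup.mk' (Inner (SurfaceGroup g))) (MulAut.conj x) = 1 := by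
        rw [QuotientGroup.mk'_apply, QuotientGroup.eq_one_iff]
        exact ⟨x, rfl⟩
      rw [this]
      exact one_mem _

end Pool.Agent.Results.MP_f42b78_gt.JohnsonGenerators
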